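import Pool.Agent.Y599.GG.Iso
import Pool.Agent.NPC.Dec
import Pool.Agent.H671R2.OrdNP2

/-!
# The reduction on adjacency matrices
-/

namespace Pool.Agent.Y599.GG

open Pool.Agent.NPC Pool.Agent.NPC.R671 Pool.Agent.H671R2.Ord

/-- labels of vertices -/
abbrev Lb := (ℕ × ℕ) × ℕ

/-- number of pendant vertices -/
def cntB (M : List (List Bool)) (a : ℕ × ℕ) : ℕ :=
  if a.1 = a.2 then 2 else if me M a.1 a.2 = true then 1 else 0

/-- vertices -/
def vs (M : List (List Bool)) : List Lb :=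
  ((List.range M.length ×ˢ List.range M.length) ×ˢ [0, 1, 2]).filter
    (fun x => decide (x.2 ≤ cntB M x.1))

/-- exclusive or -/
def xr (a b : Bool) : Bool := (a && !b) || (!a && b)

/-- adjacency in the subdivided complete graph -/
def caB (a b : ℕ × ℕ) : Bool :=
  (decide (a.1 = b.1) && xr (decide (a.1 = a.2)) (decide (b.1 = b.2))) ||
    (!decide (a.1 = a.2) && (decide (b.1 = a.2) && decide (b.2 = a.1)))

/-- adjacency -/
def xaB (x y : Lb) : Bool :=
  (decide (x.2 = 0) && (decide (y.2 = 0) && caB x.1 y.1)) ||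
    (decide (x.1 = y.1) && xr (decide (x.2 = 0)) (decide (y.2 = 0)))

theorem xr_iff (a b : Prop) [Decidable a] [Decidable b] :
    xr (decide a) (decide b) = true ↔ (a ↔ ¬ b) := by
  unfold xr
  by_cases a <;> by_cases b <;> simp_all

theorem caB_iff (a b : ℕ × ℕ) : caB a b = true ↔ CA a b := by
  unfold caB CA
  simp only [Bool.or_eq_true, Bool.and_eq_true, decide_eq_true_eq, xr_iff, Bool.not_eq_true',
    decide_eq_false_iff_not, ne_eq]

theorem xaB_iff (x y : Lb) : xaB x y = true ↔ XA x y := by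
  unfold xaB XA
  simp only [Bool.or_eq_true, Bool.and_eq_true, decide_eq_true_eq, xr_iff, caB_iff, ne_eq]

theorem xaB_symm (x y : Lb) : xaB x y = xaB y x := by
  rw [Bool.eq_iff_iff, xaB_iff, xaB_iff]
  exact ⟨XA_symm, XA_symm⟩

theorem xaB_irrefl (x : Lb) : xaB x x = false := by
  rw [← Bool.not_eq_true, xaB_iff]
  exact XA_irrefl x

/-- the graph built from the matrix -/
def gr (M : List (List Bool)) : SimpleGraph (Fin (vs M).length) :=
  listGraph (vs M) xaB xaB_symm xaB_irrefl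

/-- the matrix of the constructed graph -/
def out (M : List (List Bool)) : List (List Bool) :=
  if M.length = 0 then [[false]] else (vs M).map (fun a => (vs M).map (fun b => xaB a b))

theorem nodup_vs (M : List (List Bool)) : (vs M).Nodup :=
  List.Nodup.filter _ ((List.nodup_range.product List.nodup_range).product (by decide))

section

variable {n : ℕ} (G : SimpleGraph (Fin n))

/-- the label of a vertex -/
def lab (x : X G) : Lb := (((x.1.1.1 : ℕ), (x.1.1.2 : ℕ)), x.1.2)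

theorem lab_inj : Function.Injective (lab G) := by
  rintro ⟨⟨⟨u, v⟩, i⟩, h⟩ ⟨⟨⟨u', v'⟩, i'⟩, h'⟩ h1
  simp only [lab, Prod.mk.injEq] at h1
  obtain ⟨⟨h2, h3⟩, h4⟩ := h1
  have h5 := Fin.ext h2
  have h6 := Fin.ext h3
  subst h5 h6 h4
  rfl

theorem cntB_eq (u v : Fin n) : cntB (adjMatrix G) ((u : ℕ), (v : ℕ)) = cnt G (u, v) := by
  unfold cntB cnt
  simp only
  by_cases h : u = v
  · rw [if_pos h, if_pos (congrArg Fin.val h)]
  · rw [if_neg h, if_neg (fun h' => h (Fin.ext h'))]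
    by_cases h2 : G.Adj u v
    · rw [if_pos h2, if_pos ((me_adj G u v).2 h2)]
    · rw [if_neg h2, if_neg (fun h' => h2 ((me_adj G u v).1 h'))]

theorem cnt_le_two (a : Fin n × Fin n) : cnt G a ≤ 2 := by
  unfold cnt
  split_ifs <;> omega

theorem mem_vs (z : Lb) : z ∈ vs (adjMatrix G) ↔ ∃ x, lab G x = z := by
  obtain ⟨⟨a, b⟩, i⟩ := z
  unfold vs
  rw [List.mem_filter, List.mem_product, List.mem_product, List.mem_range, List.mem_range,
    length_adjMatrix, decide_eq_true_eq]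
  constructor
  · rintro ⟨⟨⟨ha, hb⟩, hi⟩, h⟩
    refine ⟨⟨((⟨a, ha⟩, ⟨b, hb⟩), i), ?_⟩, rfl⟩
    have := cntB_eq G ⟨a, ha⟩ ⟨b, hb⟩
    change i ≤ cnt G (⟨a, ha⟩, ⟨b, hb⟩)
    rw [← this]
    exact h
  · rintro ⟨⟨⟨⟨u, v⟩, j⟩, hj⟩, h⟩
    simp only [lab, Prod.mk.injEq] at h
    obtain ⟨⟨rfl, rfl⟩, rfl⟩ := h
    change j ≤ cnt G (u, v) at hj
    refine ⟨⟨⟨u.2, v.2⟩, ?_⟩, ?_⟩
    · have := cnt_le_two G (u, v)
      simp only [List.mem_cons, List.not_mem_nil, or_false]
      omega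
    · change j ≤ cntB (adjMatrix G) ((u : ℕ), (v : ℕ))
      rw [cntB_eq]
      exact hj

theorem CA_lab {a b : Fin n × Fin n} :
    CA ((a.1 : ℕ), (a.2 : ℕ)) ((b.1 : ℕ), (b.2 : ℕ)) ↔ CA a b := by
  simp only [CA, Fin.val_inj, ne_eq]

theorem XA_lab (x y : X G) : XA (lab G x) (lab G y) ↔ (sg G).Adj x y := by
  change _ ↔ XA x.1 y.1
  unfold XA lab
  simp only [CA_lab, Prod.mk.injEq, Fin.val_inj, ← Prod.ext_iff]

theorem exists_iso : Nonempty (gr (adjMatrix G) ≃g sg G) := by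
  obtain ⟨e, he⟩ := exists_equiv (vs (adjMatrix G)) (nodup_vs _) (lab G) (lab_inj G) (mem_vs G)
  refine ⟨⟨e, ?_⟩⟩
  intro i j
  rw [← XA_lab, he, he, ← xaB_iff]
  rfl

theorem out_eq (hn : n ≠ 0) : out (adjMatrix G) = adjMatrix (gr (adjMatrix G)) := by
  unfold out gr
  rw [length_adjMatrix, if_neg hn, adjMatrix_listGraph]

end

section

variable {n m : ℕ} (G : SimpleGraph (Fin n)) (H : SimpleGraph (Fin m))

theorem adjMatrix_bot : adjMatrix (⊥ : SimpleGraph (Fin 1)) = [[false]] := by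
  simp [adjMatrix]

theorem geodetic_one (K : SimpleGraph (Fin 1)) : Geodetic K := by
  refine geodetic_of (D := fun _ _ => 0) ?_ ?_ ?_ ?_
  · intro x y
    simp [Subsingleton.elim x y]
  · intro x x' y h
    exact Nat.zero_le _
  · intro x y h
    exact absurd (Subsingleton.elim x y) h
  · intro x y h
    exact absurd (Subsingleton.elim x y) h

/-- the output -/
theorem out_spec : ∃ (N : ℕ) (K : SimpleGraph (Fin N)), out (adjMatrix G) = adjMatrix K ∧
    Geodetic K ∧ ((n = 0 ∧ N = 1) ∨ (n ≠ 0 ∧ Nonempty (K ≃g sg G))) := by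
  by_cases hn : n = 0
  · refine ⟨1, ⊥, ?_, geodetic_one _, Or.inl ⟨hn, rfl⟩⟩
    rw [adjMatrix_bot]
    unfold out
    rw [length_adjMatrix, if_pos hn]
  · obtain ⟨φ⟩ := exists_iso G
    have : Nonempty (Fin n) := ⟨⟨0, Nat.pos_of_ne_zero hn⟩⟩
    exact ⟨_, gr (adjMatrix G), out_eq G hn, (geodetic_sg G).of_iso φ, Or.inr ⟨hn, ⟨φ⟩⟩⟩

theorem not_subsingleton_X (hn : n ≠ 0) : ¬ Subsingleton (X G) := by
  intro h
  let u : Fin n := ⟨0, Nat.pos_of_ne_zero hn⟩
  have hc : cnt G (u, u) = 2 := by simp [cnt]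
  have := @Subsingleton.elim (X G) h ⟨((u, u), 1), by change 1 ≤ cnt G (u, u); omega⟩
    ⟨((u, u), 2), by change 2 ≤ cnt G (u, u); omega⟩
  have h2 := congrArg (fun z : X G => z.1.2) this
  simp at h2

theorem spec_iso {N M : ℕ} {K : SimpleGraph (Fin N)} {L : SimpleGraph (Fin M)}
    (h1 : (n = 0 ∧ N = 1) ∨ (n ≠ 0 ∧ Nonempty (K ≃g sg G)))
    (h2 : (m = 0 ∧ M = 1) ∨ (m ≠ 0 ∧ Nonempty (L ≃g sg H))) :
    Nonempty (K ≃g L) ↔ Nonempty (G ≃g H) := by
  rcases h1 with ⟨h1, h1'⟩ | ⟨h1, ⟨φ⟩⟩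
  · subst h1 h1'
    rcases h2 with ⟨h2, h2'⟩ | ⟨h2, ⟨ψ⟩⟩
    · subst h2 h2'
      constructor
      · intro _
        exact ⟨⟨Equiv.refl _, fun {a} => a.elim0⟩⟩
      · intro _
        refine ⟨⟨Equiv.refl _, fun {a b} => ?_⟩⟩
        rw [Subsingleton.elim a b]
        simp
    · constructor
      · rintro ⟨χ⟩
        exfalso
        apply not_subsingleton_X H h2
        exact (ψ.symm.trans χ.symm).toEquiv.injective.subsingleton
      · rintro ⟨χ⟩
        exfalso
        exact (χ.symm ⟨0, Nat.pos_of_ne_zero h2⟩).elim0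
  · rcases h2 with ⟨h2, h2'⟩ | ⟨h2, ⟨ψ⟩⟩
    · subst h2 h2'
      constructor
      · rintro ⟨χ⟩
        exfalso
        apply not_subsingleton_X G h1
        exact (φ.symm.trans χ).toEquiv.injective.subsingleton
      · rintro ⟨χ⟩
        exfalso
        exact (χ ⟨0, Nat.pos_of_ne_zero h1⟩).elim0
    · rw [← iso_iff (G := G) (H := H)]
      exact ⟨fun ⟨χ⟩ => ⟨(φ.symm.trans χ).trans ψ⟩, fun ⟨χ⟩ => ⟨(φ.trans χ).trans ψ.symm⟩⟩

end

theorem cntB_poly {α : Type} [TEnc α] {M : α → List (List Bool)} {a : α → ℕ × ℕ} (h1 : Poly M)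
    (h2 : Poly a) : Poly (fun x => cntB (M x) (a x)) := by
  unfold cntB
  fun_prop

attribute [fun_prop] cntB_poly

theorem vs_poly : Poly vs := by
  unfold vs
  have h1 : Poly (fun M : List (List Bool) => List.range M.length) :=
    NPC.Poly.range_length NPC.Poly.id
  exact NPC.Poly.filter (p := fun (M : List (List Bool)) (x : Lb) => decide (x.2 ≤ cntB M x.1))
    (poly_product (poly_product h1 h1) (NPC.Poly.const [0, 1, 2])) (by fun_prop)

theorem xaB_poly {α : Type} [TEnc α] {a b : α → Lb} (h1 : Poly a) (h2 : Poly b) :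
    Poly (fun x => xaB (a x) (b x)) := by
  unfold xaB caB xr
  fun_prop

attribute [fun_prop] vs_poly xaB_poly
attribute [local irreducible] vs xaB

theorem out_poly : Poly out := by
  unfold out
  fun_prop

end Pool.Agent.Y599.GG
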