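import Pool.Agent.Y599.GG.Geo

/-!
# The subdivided complete graph with pendant vertices
-/

namespace Pool.Agent.Y599.GG

variable {V : Type}

/-- adjacency in the complete graph all of whose edges `uv` are replaced by a path
`(u,u), (u,v), (v,u), (v,v)` -/
def CA (a b : V × V) : Prop :=
  (a.1 = b.1 ∧ (a.1 = a.2 ↔ b.1 ≠ b.2)) ∨ (a.1 ≠ a.2 ∧ b.1 = a.2 ∧ b.2 = a.1)

open Classical in
/-- distances in this graph -/
noncomputable def D0 (a b : V × V) : ℕ :=
  if a.1 = b.1 then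
    (if a.2 = b.2 then 0 else (if a.1 = a.2 then 0 else 1) + (if b.1 = b.2 then 0 else 1))
  else if a.2 = b.1 ∧ a.1 = b.2 then 1
  else if a.1 = b.2 then (if a.1 = a.2 then 0 else 1) + 2
  else if a.2 = b.1 then 2 + (if b.1 = b.2 then 0 else 1)
  else if a.2 = b.2 then 4
  else (if a.1 = a.2 then 0 else 1) + 3 + (if b.1 = b.2 then 0 else 1)

theorem CA_symm {a b : V × V} (h : CA a b) : CA b a := by
  obtain ⟨a1, a2⟩ := a
  obtain ⟨b1, b2⟩ := b
  unfold CA at h ⊢
  simp only at h ⊢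
  rcases h with ⟨h1, h2⟩ | ⟨h1, h2, h3⟩
  · left
    subst h1
    refine ⟨rfl, ?_⟩
    tauto
  · right
    subst h2 h3
    exact ⟨fun h => h1 h.symm, rfl, rfl⟩

theorem CA_irrefl (a : V × V) : ¬ CA a a := by
  obtain ⟨a1, a2⟩ := a
  unfold CA
  simp only
  rintro (⟨h1, h2⟩ | ⟨h1, h2, h3⟩)
  · tauto
  · exact h1 h2

theorem D0_zero (a b : V × V) : D0 a b = 0 ↔ a = b := by
  obtain ⟨a1, a2⟩ := a
  obtain ⟨b1, b2⟩ := b
  simp only [D0, Prod.mk.injEq]
  split_ifs <;> simp_all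

theorem D0_le (a a' b : V × V) (h : CA a a') : D0 a b ≤ D0 a' b + 1 := by
  obtain ⟨a1, a2⟩ := a
  obtain ⟨a1', a2'⟩ := a'
  obtain ⟨b1, b2⟩ := b
  rcases h with ⟨h1, h2⟩ | ⟨h1, h2, h3⟩
  · simp only at h1 h2
    subst h1
    simp only [D0]
    by_cases h3 : a1 = a2
    · have h4 := h2.1 h3
      subst h3
      split_ifs <;> simp_all
    · have h4 : a1 = a2' := by by_contra h; exact h3 (h2.2 h)
      subst h4
      split_ifs <;> simp_all
  · simp only at h1 h2 h3
    subst h2 h3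
    simp only [D0]
    split_ifs <;> simp_all

open Classical in
/-- the next vertex on the way from `a` to `b` -/
noncomputable def nx (a b : V × V) : V × V :=
  if a.1 = a.2 then (if b.1 = a.1 then b else (a.1, b.1))
  else if a.1 = b.1 then (a.1, a.1)
  else if b.1 = a.2 then (a.2, a.1)
  else if b.2 = a.1 then (a.1, a.1)
  else if b.2 = a.2 then (a.2, a.1)
  else (a.1, a.1)

theorem nx_adj (a b : V × V) (h : a ≠ b) : CA a (nx a b) := by
  obtain ⟨a1, a2⟩ := a
  obtain ⟨b1, b2⟩ := b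
  simp only [ne_eq, Prod.mk.injEq] at h
  unfold nx
  simp only
  split_ifs <;> simp only [CA] <;> grind

theorem nx_D0 (a b : V × V) (h : a ≠ b) : D0 (nx a b) b + 1 = D0 a b := by
  obtain ⟨a1, a2⟩ := a
  obtain ⟨b1, b2⟩ := b
  simp only [ne_eq, Prod.mk.injEq] at h
  unfold nx
  simp only
  split_ifs <;> simp only [D0] <;> split_ifs <;> grind

theorem nx_unique (a b : V × V) (h : a ≠ b) (c : V × V) (h1 : CA a c) (h2 : D0 c b + 1 = D0 a b) :
    c = nx a b := by
  obtain ⟨a1, a2⟩ := a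
  obtain ⟨b1, b2⟩ := b
  obtain ⟨c1, c2⟩ := c
  simp only [ne_eq, Prod.mk.injEq] at h
  unfold nx
  simp only
  rcases h1 with ⟨h3, h4⟩ | ⟨h3, h4, h5⟩
  · simp only at h3 h4
    subst h3
    by_cases h5 : a1 = a2
    · subst h5
      simp only [true_iff] at h4
      simp only [D0] at h2
      split_ifs at h2 ⊢ <;> grind
    · have h6 : a1 = c2 := by by_contra h; exact h5 (h4.2 h)
      subst h6
      simp only [D0] at h2
      split_ifs at h2 ⊢ <;> grind
  · simp only at h3 h4 h5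
    subst h4 h5
    simp only [D0] at h2
    split_ifs at h2 ⊢ <;> grind

end Pool.Agent.Y599.GG
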