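import Pool.Agent.NPC.Classes
import Pool.Agent.H671R2.ZDefs

/-!
# Isomorphism of geodetic graphs: definitions
-/

namespace Pool.Agent.Y599.GG

open Pool.Agent.NPC Pool.Agent.NPC.R671

/-- A graph is geodetic if it is connected and any two vertices `u`, `v` are joined by exactly one
path of length `dist u v`. -/
def Geodetic {V : Type} (G : SimpleGraph V) : Prop :=
  G.Connected ∧ ∀ u v : V, ∃! p : G.Walk u v, p.IsPath ∧ p.length = G.dist u v

/-- The graph isomorphism problem: the input consists of the adjacency matrices of two graphs. -/
def GraphIso (I : List (List Bool) × List (List Bool)) : Prop :=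
  ∃ (n m : ℕ) (G : SimpleGraph (Fin n)) (H : SimpleGraph (Fin m)),
    I = (adjMatrix G, adjMatrix H) ∧ Nonempty (G ≃g H)

/-- The isomorphism problem for geodetic graphs: the input consists of the adjacency matrices of two
graphs, and the question is whether the graphs are geodetic and isomorphic. -/
def GeodeticIso (I : List (List Bool) × List (List Bool)) : Prop :=
  ∃ (n m : ℕ) (G : SimpleGraph (Fin n)) (H : SimpleGraph (Fin m)),
    I = (adjMatrix G, adjMatrix H) ∧ Geodetic G ∧ Geodetic H ∧ Nonempty (G ≃g H)

/-- The language `A` solves the isomorphism problem for geodetic graphs: for any two geodetic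
graphs, the code of the pair of their adjacency matrices belongs to `A` if and only if the graphs
are isomorphic. Nothing is required of the other inputs. -/
def SolvesGeodeticIso (A : Set (List Bool)) : Prop :=
  ∀ (n m : ℕ) (G : SimpleGraph (Fin n)) (H : SimpleGraph (Fin m)), Geodetic G → Geodetic H →
    (bits (adjMatrix G, adjMatrix H) ∈ A ↔ Nonempty (G ≃g H))

end Pool.Agent.Y599.GG
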