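import Pool.Agent.Y599.GG.Test

/-!
# Isomorphism of geodetic graphs is GI-complete
-/

namespace Pool.Agent.Y599.GG

open Pool.Agent.NPC Pool.Agent.NPC.R671 Pool.Agent.H671R2.Ord

section

variable {n m : ℕ} {G : SimpleGraph (Fin n)} {H : SimpleGraph (Fin m)}

theorem sz_eq_of_adjMatrix (h : adjMatrix G = adjMatrix H) : n = m := by
  have := congrArg List.length h
  rwa [length_adjMatrix, length_adjMatrix] at this

/-- the matrices determine the graphs -/
theorem graphIso_iff : GraphIso (adjMatrix G, adjMatrix H) ↔ Nonempty (G ≃g H) := by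
  constructor
  · rintro ⟨n', m', G', H', h, h'⟩
    simp only [Prod.mk.injEq] at h
    obtain ⟨h1, h2⟩ := h
    have e1 := sz_eq_of_adjMatrix h1
    have e2 := sz_eq_of_adjMatrix h2
    subst e1 e2
    have e3 := adjMatrix_inj h1
    have e4 := adjMatrix_inj h2
    subst e3 e4
    exact h'
  · intro h
    exact ⟨n, m, G, H, rfl, h⟩

theorem geodeticIso_iff : GeodeticIso (adjMatrix G, adjMatrix H) ↔
    Geodetic G ∧ Geodetic H ∧ Nonempty (G ≃g H) := by
  constructor
  · rintro ⟨n', m', G', H', h, h'⟩
    simp only [Prod.mk.injEq] at h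
    obtain ⟨h1, h2⟩ := h
    have e1 := sz_eq_of_adjMatrix h1
    have e2 := sz_eq_of_adjMatrix h2
    subst e1 e2
    have e3 := adjMatrix_inj h1
    have e4 := adjMatrix_inj h2
    subst e3 e4
    exact h'
  · intro h
    exact ⟨n, m, G, H, rfl, h⟩

end

/-- the reduction -/
def red (I : List (List Bool) × List (List Bool)) : List (List Bool) × List (List Bool) :=
  if wf I.1 && wf I.2 then (out I.1, out I.2) else ([[false]], [[false, true], [true, false]])

attribute [fun_prop] wf_poly out_poly geoB_poly

theorem wf_poly' {α : Type} [TEnc α] {M : α → List (List Bool)} (h1 : Poly M) :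
    Poly (fun x => wf (M x)) := wf_poly.comp h1

theorem out_poly' {α : Type} [TEnc α] {M : α → List (List Bool)} (h1 : Poly M) :
    Poly (fun x => out (M x)) := out_poly.comp h1

theorem geoB_poly' {α : Type} [TEnc α] {M : α → List (List Bool)} (h1 : Poly M) :
    Poly (fun x => geoB (M x)) := geoB_poly.comp h1

theorem wf_bad : wf [[true]] = false := by decide

attribute [fun_prop] wf_poly' out_poly' geoB_poly'
attribute [local irreducible] wf out geoB

theorem red_poly : Poly red := by
  unfold red
  fun_prop

theorem geodetic_two : Geodetic (⊤ : SimpleGraph (Fin 2)) := by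
  refine geodetic_of (D := fun x y => if x = y then 0 else 1) ?_ ?_ ?_ ?_
  · intro x y
    simp
  · intro x x' y _
    split_ifs <;> omega
  · intro x y h
    exact ⟨y, h, by simp [h]⟩
  · intro x y h a b ha hb _ _
    have h1 : x ≠ a := ha
    have h2 : x ≠ b := hb
    fin_cases x <;> fin_cases a <;> fin_cases b <;> simp_all

theorem adjMatrix_top : adjMatrix (⊤ : SimpleGraph (Fin 2)) = [[false, true], [true, false]] := by
  simp [adjMatrix]

theorem not_iso : ¬ Nonempty ((⊥ : SimpleGraph (Fin 1)) ≃g (⊤ : SimpleGraph (Fin 2))) := by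
  rintro ⟨φ⟩
  have := Fintype.card_congr φ.toEquiv
  simp at this

/-- the reduction maps every input to a pair of geodetic graphs, which are isomorphic if and only if
the input is a pair of isomorphic graphs -/
theorem red_spec (I : List (List Bool) × List (List Bool)) :
    ∃ (N M : ℕ) (K : SimpleGraph (Fin N)) (L : SimpleGraph (Fin M)),
      red I = (adjMatrix K, adjMatrix L) ∧ Geodetic K ∧ Geodetic L ∧
      (GraphIso I ↔ Nonempty (K ≃g L)) := by
  obtain ⟨A, B⟩ := I
  unfold red
  by_cases h : (wf A && wf B) = true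
  · simp only [h, if_true]
    rw [Bool.and_eq_true] at h
    obtain ⟨n, G, rfl⟩ := (wf_iff A).1 h.1
    obtain ⟨m, H, rfl⟩ := (wf_iff B).1 h.2
    obtain ⟨N, K, h1, h2, h3⟩ := out_spec G
    obtain ⟨M, L, h4, h5, h6⟩ := out_spec H
    refine ⟨N, M, K, L, by rw [h1, h4], h2, h5, ?_⟩
    rw [graphIso_iff]
    exact (spec_iso G H h3 h6).symm
  · simp only [h]
    refine ⟨1, 2, ⊥, ⊤, by rw [adjMatrix_bot, adjMatrix_top]; rfl, geodetic_one _, geodetic_two, ?_⟩
    constructor
    · rintro ⟨n, m, G, H, h1, _⟩
      exfalso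
      apply h
      simp only [Prod.mk.injEq] at h1
      rw [Bool.and_eq_true]
      exact ⟨(wf_iff A).2 ⟨n, G, h1.1.symm⟩, (wf_iff B).2 ⟨m, H, h1.2.symm⟩⟩
    · intro h1
      exact absurd h1 not_iso

/-- every solution of the problem for geodetic graphs is GI-hard -/
theorem reduces_of_solves {A : Set (List Bool)} (hA : SolvesGeodeticIso A) :
    Reduces (lang GraphIso) A := by
  let β := List (List Bool) × List (List Bool)
  let g : List Bool → β := fun x => match unbits β x with
    | none => red ([], [[true]])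
    | some I => red I
  have hg : Poly g := NPC.Poly.optCases (h := fun _ I => red I) poly_unbits (NPC.Poly.const _)
    (red_poly.comp (NPC.Poly.snd NPC.Poly.id))
  refine ⟨fun x => bits (g x), polyTime_bits hg, fun x => ?_⟩
  rw [mem_lang_iff]
  simp only [g]
  cases hx : unbits β x with
  | none =>
    simp only
    obtain ⟨N, M, K, L, h1, h2, h3, h4⟩ := red_spec ([], [[true]])
    rw [h1, hA N M K L h2 h3, ← h4]
    constructor
    · rintro ⟨a, h, _⟩
      simp at h
    · rintro ⟨n, m, G, H, h, _⟩
      exfalso
      simp only [Prod.mk.injEq] at h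
      have h5 : wf [[true]] = true := (wf_iff _).2 ⟨m, H, h.2.symm⟩
      rw [wf_bad] at h5
      exact absurd h5 (by simp)
  | some I =>
    simp only
    obtain ⟨N, M, K, L, h1, h2, h3, h4⟩ := red_spec I
    rw [h1, hA N M K L h2 h3, ← h4]
    constructor
    · rintro ⟨a, h, h'⟩
      have : I = a := by simpa using h
      rw [this]
      exact h'
    · intro h
      exact ⟨I, rfl, h⟩

theorem solves_geodeticIso : SolvesGeodeticIso (lang GeodeticIso) := by
  intro n m G H hG hH
  rw [bits_mem_lang, geodeticIso_iff]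
  tauto

theorem solves_graphIso : SolvesGeodeticIso (lang GraphIso) := by
  intro n m G H _ _
  rw [bits_mem_lang, graphIso_iff]

/-- the reduction in the other direction -/
def back (I : List (List Bool) × List (List Bool)) : List (List Bool) × List (List Bool) :=
  if (wf I.1 && geoB I.1) && (wf I.2 && geoB I.2) then I
  else ([[false]], [[false, true], [true, false]])

theorem back_poly : Poly back := by
  unfold back
  fun_prop

theorem back_iff (I : List (List Bool) × List (List Bool)) : GeodeticIso I ↔ GraphIso (back I) := by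
  obtain ⟨A, B⟩ := I
  unfold back
  by_cases h : ((wf A && geoB A) && (wf B && geoB B)) = true
  · simp only [h, if_true]
    simp only [Bool.and_eq_true] at h
    obtain ⟨⟨h1, h2⟩, h3, h4⟩ := h
    obtain ⟨n, G, rfl⟩ := (wf_iff A).1 h1
    obtain ⟨m, H, rfl⟩ := (wf_iff B).1 h3
    rw [geodeticIso_iff, graphIso_iff]
    rw [geoB_iff] at h2 h4
    tauto
  · simp only [h]
    constructor
    · rintro ⟨n, m, G, H, h1, h2, h3, _⟩
      exfalso
      apply h
      simp only [Prod.mk.injEq] at h1
      simp only [Bool.and_eq_true]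
      obtain ⟨rfl, rfl⟩ := h1
      exact ⟨⟨(wf_iff _).2 ⟨n, G, rfl⟩, (geoB_iff G).2 h2⟩,
        (wf_iff _).2 ⟨m, H, rfl⟩, (geoB_iff H).2 h3⟩
    · intro h1
      exfalso
      apply not_iso
      rw [← graphIso_iff, adjMatrix_bot, adjMatrix_top]
      simpa using h1

end Pool.Agent.Y599.GG
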