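import Pool.Agent.Y599.GG.Defs

/-!
# A criterion for geodetic graphs
-/

namespace Pool.Agent.Y599.GG

variable {V : Type} {G : SimpleGraph V} {D : V → V → ℕ}

theorem le_length (h0 : ∀ x, D x x = 0) (h1 : ∀ x x' y, G.Adj x x' → D x y ≤ D x' y + 1) :
    ∀ {x y : V} (p : G.Walk x y), D x y ≤ p.length
  | x, _, .nil => by rw [h0]; exact Nat.zero_le _
  | x, y, .cons h p => by
    have := le_length h0 h1 p
    have := h1 _ _ y h
    rw [SimpleGraph.Walk.length_cons]
    omega

theorem exists_walk (h0 : ∀ x y, D x y = 0 ↔ x = y)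
    (h2 : ∀ x y, x ≠ y → ∃ x', G.Adj x x' ∧ D x' y + 1 = D x y) :
    ∀ (k : ℕ) (x y : V), D x y = k → ∃ p : G.Walk x y, p.length = k
  | 0, x, y, h => by
    have := (h0 x y).1 h
    subst this
    exact ⟨.nil, rfl⟩
  | k + 1, x, y, h => by
    have hxy : x ≠ y := by
      intro h'
      rw [(h0 x y).2 h'] at h
      omega
    obtain ⟨x', h3, h4⟩ := h2 x y hxy
    obtain ⟨p, hp⟩ := exists_walk h0 h2 k x' y (by omega)
    exact ⟨.cons h3 p, by simp [hp]⟩

theorem walk_unique (h00 : ∀ x, D x x = 0)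
    (h1 : ∀ x x' y, G.Adj x x' → D x y ≤ D x' y + 1)
    (h2 : ∀ x y, x ≠ y → ∀ a b, G.Adj x a → G.Adj x b → D a y + 1 = D x y → D b y + 1 = D x y →
      a = b) :
    ∀ {x y : V} (p q : G.Walk x y), p.length = D x y → q.length = D x y → p = q
  | x, _, .nil, .nil, _, _ => rfl
  | x, _, .nil, .cons h q, h3, h4 => by
    rw [h00] at h4
    simp at h4
  | x, _, .cons h p, .nil, h3, h4 => by
    rw [h00] at h3
    simp at h3
  | x, y, .cons (v := a) h p, .cons (v := b) h' q, h3, h4 => by
    have h5 := le_length h00 h1 p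
    have h6 := le_length h00 h1 q
    have h7 := h1 x a y h
    have h8 := h1 x b y h'
    rw [SimpleGraph.Walk.length_cons] at h3 h4
    have hxy : x ≠ y := by
      rintro rfl
      rw [h00] at h3
      omega
    have h9 : a = b := h2 x y hxy a b h h' (by omega) (by omega)
    subst h9
    rw [walk_unique h00 h1 h2 p q (by omega) (by omega)]

theorem geodetic_of [Nonempty V] (h0 : ∀ x y, D x y = 0 ↔ x = y)
    (h1 : ∀ x x' y, G.Adj x x' → D x y ≤ D x' y + 1)
    (h2 : ∀ x y, x ≠ y → ∃ x', G.Adj x x' ∧ D x' y + 1 = D x y)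
    (h3 : ∀ x y, x ≠ y → ∀ a b, G.Adj x a → G.Adj x b → D a y + 1 = D x y → D b y + 1 = D x y →
      a = b) : Geodetic G := by
  have h00 : ∀ x, D x x = 0 := fun x => (h0 x x).2 rfl
  have hw := exists_walk (G := G) (D := D) h0 h2
  have hconn : G.Connected :=
    ⟨fun x y => ⟨(hw _ x y rfl).choose⟩⟩
  have hdist : ∀ x y, G.dist x y = D x y := by
    intro x y
    apply le_antisymm
    · obtain ⟨p, hp⟩ := hw _ x y rfl
      rw [← hp]
      exact SimpleGraph.dist_le p
    · obtain ⟨p, hp⟩ := hconn.exists_walk_length_eq_dist x y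
      rw [← hp]
      exact le_length h00 h1 p
  refine ⟨hconn, fun u v => ?_⟩
  obtain ⟨p, hp⟩ := hw _ u v rfl
  refine ⟨p, ⟨?_, by rw [hdist, hp]⟩, ?_⟩
  · exact SimpleGraph.Walk.isPath_of_length_eq_dist _ (by rw [hdist, hp])
  · rintro q ⟨_, hq⟩
    exact walk_unique h00 h1 h3 q p (by rw [hq, hdist]) hp

/-- in a geodetic graph the next vertex on a shortest path is unique -/
theorem Geodetic.next_unique (h : Geodetic G) {x y a b : V} (ha : G.Adj x a) (hb : G.Adj x b)
    (h1 : G.dist a y + 1 = G.dist x y) (h2 : G.dist b y + 1 = G.dist x y) : a = b := by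
  obtain ⟨p, hp⟩ := h.1.exists_walk_length_eq_dist a y
  obtain ⟨q, hq⟩ := h.1.exists_walk_length_eq_dist b y
  have h3 : (SimpleGraph.Walk.cons ha p).length = G.dist x y := by
    rw [SimpleGraph.Walk.length_cons, hp, h1]
  have h4 : (SimpleGraph.Walk.cons hb q).length = G.dist x y := by
    rw [SimpleGraph.Walk.length_cons, hq, h2]
  obtain ⟨r, _, hr⟩ := h.2 x y
  have h5 := hr _ ⟨SimpleGraph.Walk.isPath_of_length_eq_dist _ h3, h3⟩
  have h6 := hr _ ⟨SimpleGraph.Walk.isPath_of_length_eq_dist _ h4, h4⟩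
  have h7 := h5.trans h6.symm
  have h8 := congrArg (fun w : G.Walk x y => w.getVert 1) h7
  simpa using h8

theorem Geodetic.exists_next (h : G.Connected) {x y : V} (hxy : x ≠ y) :
    ∃ x', G.Adj x x' ∧ G.dist x' y + 1 = G.dist x y := by
  obtain ⟨p, hp⟩ := h.exists_walk_length_eq_dist x y
  cases p with
  | nil => exact absurd rfl hxy
  | cons h' q =>
    rename_i a
    refine ⟨a, h', ?_⟩
    rw [SimpleGraph.Walk.length_cons] at hp
    have h1 : G.dist a y ≤ q.length := SimpleGraph.dist_le q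
    have h2 : G.dist x y ≤ G.dist a y + 1 := by
      obtain ⟨r, hr⟩ := h.exists_walk_length_eq_dist a y
      have := SimpleGraph.dist_le (SimpleGraph.Walk.cons h' r)
      rw [SimpleGraph.Walk.length_cons, hr] at this
      exact this
    omega

theorem dist_le_succ (h : G.Connected) {x x' : V} (y : V) (h' : G.Adj x x') :
    G.dist x y ≤ G.dist x' y + 1 := by
  obtain ⟨r, hr⟩ := h.exists_walk_length_eq_dist x' y
  have := SimpleGraph.dist_le (SimpleGraph.Walk.cons h' r)
  rw [SimpleGraph.Walk.length_cons, hr] at this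
  exact this

/-- being geodetic is invariant under isomorphism -/
theorem Geodetic.of_iso {W : Type} {K : SimpleGraph W} (φ : K ≃g G) (h : Geodetic G) :
    Geodetic K := by
  have hne : Nonempty W := ⟨φ.symm h.1.nonempty.some⟩
  refine geodetic_of (D := fun x y => G.dist (φ x) (φ y)) ?_ ?_ ?_ ?_
  · intro x y
    rw [h.1.dist_eq_zero_iff, φ.injective.eq_iff]
  · intro x x' y hx
    exact dist_le_succ h.1 _ (φ.map_adj_iff.2 hx)
  · intro x y hxy
    obtain ⟨z, h1, h2⟩ := Geodetic.exists_next h.1 (fun h => hxy (φ.injective h))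
    refine ⟨φ.symm z, ?_, ?_⟩
    · rw [← φ.map_adj_iff, φ.apply_symm_apply]
      exact h1
    · simp only [φ.apply_symm_apply]
      exact h2
  · intro x y hxy a b ha hb h1 h2
    exact φ.injective (h.next_unique (φ.map_adj_iff.2 ha) (φ.map_adj_iff.2 hb) h1 h2)

end Pool.Agent.Y599.GG
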