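import Pool.Agent.Y599.GG.Sub

/-!
# The construction preserves and reflects isomorphism
-/

namespace Pool.Agent.Y599.GG

variable {V W : Type} {G : SimpleGraph V} {H : SimpleGraph W}

theorem cnt_map (φ : G ≃g H) (a : V × V) : cnt H (φ a.1, φ a.2) = cnt G a := by
  unfold cnt
  by_cases h : a.1 = a.2
  · rw [if_pos h, if_pos (congrArg φ h)]
  · rw [if_neg h, if_neg (fun h' => h (φ.injective h'))]
    by_cases h2 : G.Adj a.1 a.2
    · rw [if_pos h2, if_pos (φ.map_adj_iff.2 h2)]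
    · rw [if_neg h2, if_neg (fun h' => h2 (φ.map_adj_iff.1 h'))]

theorem CA_map {f : V → W} (hf : Function.Injective f) (a b : V × V) :
    CA (f a.1, f a.2) (f b.1, f b.2) ↔ CA a b := by
  simp only [CA, hf.eq_iff, ne_eq]

/-- the map of the vertices -/
def mp (φ : G ≃g H) (x : X G) : X H :=
  ⟨((φ x.1.1.1, φ x.1.1.2), x.1.2), by
    change x.1.2 ≤ cnt H (φ x.1.1.1, φ x.1.1.2)
    rw [cnt_map φ x.1.1]
    exact x.2⟩

theorem iso_of_iso (φ : G ≃g H) : Nonempty (sg G ≃g sg H) := by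
  refine ⟨⟨⟨mp φ, mp φ.symm, ?_, ?_⟩, ?_⟩⟩
  · rintro ⟨⟨⟨u, v⟩, i⟩, h⟩
    apply Subtype.ext
    simp [mp]
  · rintro ⟨⟨⟨u, v⟩, i⟩, h⟩
    apply Subtype.ext
    simp [mp]
  · rintro ⟨⟨⟨u, v⟩, i⟩, h⟩ ⟨⟨⟨u', v'⟩, i'⟩, h'⟩
    change XA ((φ u, φ v), i) ((φ u', φ v'), i') ↔ XA ((u, v), i) ((u', v'), i')
    have := CA_map φ.injective (u, v) (u', v')
    simp only at this
    simp only [XA, this, Prod.mk.injEq, φ.injective.eq_iff]

/-- at most one neighbour -/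
def Lf (K : SimpleGraph W) (l : W) : Prop := ∀ a b, K.Adj l a → K.Adj l b → a = b

/-- two pendant neighbours -/
def Hb (K : SimpleGraph W) (x : W) : Prop :=
  ∃ l l', l ≠ l' ∧ K.Adj x l ∧ K.Adj x l' ∧ Lf K l ∧ Lf K l'

/-- a path of length three whose second vertex has a pendant neighbour -/
def Pr (K : SimpleGraph W) (x y : W) : Prop :=
  ∃ s t l, K.Adj x s ∧ K.Adj s t ∧ K.Adj t y ∧ K.Adj s l ∧ Lf K l

theorem Lf_map (φ : G ≃g H) (x : V) (h : Lf G x) : Lf H (φ x) := by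
  intro a b ha hb
  have h1 := h (φ.symm a) (φ.symm b) (by
    rw [← φ.map_adj_iff, φ.apply_symm_apply]; exact ha) (by
    rw [← φ.map_adj_iff, φ.apply_symm_apply]; exact hb)
  exact φ.symm.injective h1

theorem Hb_map (φ : G ≃g H) (x : V) (h : Hb G x) : Hb H (φ x) := by
  obtain ⟨l, l', h1, h2, h3, h4, h5⟩ := h
  exact ⟨φ l, φ l', fun h => h1 (φ.injective h), φ.map_adj_iff.2 h2, φ.map_adj_iff.2 h3,
    Lf_map φ l h4, Lf_map φ l' h5⟩

theorem Pr_map (φ : G ≃g H) (x y : V) (h : Pr G x y) : Pr H (φ x) (φ y) := by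
  obtain ⟨s, t, l, h1, h2, h3, h4, h5⟩ := h
  exact ⟨φ s, φ t, φ l, φ.map_adj_iff.2 h1, φ.map_adj_iff.2 h2, φ.map_adj_iff.2 h3,
    φ.map_adj_iff.2 h4, Lf_map φ l h5⟩

theorem lf_iff (x : X G) : Lf (sg G) x ↔ x.1.2 ≠ 0 := by
  obtain ⟨⟨⟨u, v⟩, i⟩, hx⟩ := x
  constructor
  · rintro h h0
    simp only at h0
    subst h0
    by_cases huv : u = v
    · subst huv
      have hc : cnt G (u, u) = 2 := by simp [cnt]
      have := h ⟨((u, u), 1), by change 1 ≤ cnt G (u, u); omega⟩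
        ⟨((u, u), 2), by change 2 ≤ cnt G (u, u); omega⟩ (Or.inr ⟨rfl, by simp⟩)
        (Or.inr ⟨rfl, by simp⟩)
      have h2 := congrArg (fun z : X G => z.1.2) this
      simp at h2
    · have := h (bs G (u, u)) (bs G (v, u)) (Or.inl ⟨rfl, rfl, Or.inl ⟨rfl, by simp [huv, bs]⟩⟩)
        (Or.inl ⟨rfl, rfl, Or.inr ⟨huv, rfl, rfl⟩⟩)
      have h2 := congrArg (fun z : X G => z.1.1.1) this
      simp only [bs] at h2
      exact huv h2
  · intro h
    have key : ∀ y : X G, (sg G).Adj ⟨((u, v), i), hx⟩ y → y.1 = ((u, v), 0) := by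
      rintro ⟨⟨b, j⟩, hy⟩ h1
      rcases h1 with ⟨h1, _, _⟩ | ⟨h1, h2⟩
      · exact absurd h1 h
      · simp only at h1 h2
        subst h1
        have : j = 0 := by
          by_contra hj
          exact h (h2.2 hj)
        subst this
        rfl
    intro a b ha hb
    exact Subtype.ext ((key a ha).trans (key b hb).symm)

theorem hb_iff (x : X G) : Hb (sg G) x ↔ x.1.2 = 0 ∧ x.1.1.1 = x.1.1.2 := by
  obtain ⟨⟨⟨u, v⟩, i⟩, hx⟩ := x
  constructor
  · rintro ⟨⟨⟨a, j⟩, hl⟩, ⟨⟨a', j'⟩, hl'⟩, h1, h2, h3, h4, h5⟩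
    rw [lf_iff] at h4 h5
    simp only at h4 h5
    rcases h2 with ⟨_, h2, _⟩ | ⟨h2, h2'⟩
    · exact absurd h2 h4
    rcases h3 with ⟨_, h3, _⟩ | ⟨h3, h3'⟩
    · exact absurd h3 h5
    simp only at h2 h2' h3 h3'
    subst h2 h3
    refine ⟨h2'.2 h4, ?_⟩
    by_contra huv
    change ¬ u = v at huv
    change j ≤ cnt G (u, v) at hl
    change j' ≤ cnt G (u, v) at hl'
    have hc : cnt G (u, v) ≤ 1 := by
      unfold cnt
      simp only [huv, if_false]
      split_ifs <;> omega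
    have h6 : j = j' := by omega
    subst h6
    exact h1 rfl
  · rintro ⟨h1, h2⟩
    simp only at h1 h2
    subst h1 h2
    have hc : cnt G (u, u) = 2 := by simp [cnt]
    refine ⟨⟨((u, u), 1), by change 1 ≤ cnt G (u, u); omega⟩,
        ⟨((u, u), 2), by change 2 ≤ cnt G (u, u); omega⟩, ?_, (Or.inr ⟨rfl, by simp⟩),
        (Or.inr ⟨rfl, by simp⟩), (lf_iff _).2 (by simp), (lf_iff _).2 (by simp)⟩
    intro h
    have h2 := congrArg (fun z : X G => z.1.2) h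
    simp at h2

theorem pr_iff {u v : V} (huv : u ≠ v) : Pr (sg G) (bs G (u, u)) (bs G (v, v)) ↔ G.Adj u v := by
  constructor
  · rintro ⟨⟨⟨⟨a, b⟩, i⟩, hs⟩, ⟨⟨⟨c, d⟩, j⟩, ht⟩, ⟨⟨⟨e, f⟩, k⟩, hl⟩, h1, h2, h3, h4, h5⟩
    rw [lf_iff] at h5
    simp only at h5
    have ha : a = u := by
      rcases h1 with ⟨_, _, h1 | h1⟩ | ⟨h1, _⟩
      · exact h1.1.symm
      · exact absurd rfl h1.1
      · simp only [bs, Prod.mk.injEq] at h1
        exact h1.1.symm
    have hc : c = v := by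
      rcases h3 with ⟨_, _, h3 | h3⟩ | ⟨h3, _⟩
      · exact h3.1
      · simp only [bs] at h3
        exact absurd (h3.2.1.symm.trans h3.2.2) (fun h => h3.1 h.symm)
      · simp only [bs, Prod.mk.injEq] at h3
        exact h3.1
    subst ha hc
    rcases h2 with ⟨h6, h7, h2 | h2⟩ | ⟨h2, _⟩
    · exact absurd h2.1 huv
    · simp only at h6 h7 h2
      rcases h4 with ⟨_, h4, _⟩ | ⟨h4, _⟩
      · exact absurd h4 h5
      · simp only [Prod.mk.injEq] at h4
        obtain ⟨h8, h9⟩ := h4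
        subst h8 h9
        change k ≤ cnt G (a, b) at hl
        obtain ⟨h10, h11, h12⟩ := h2
        subst h11
        by_contra h13
        have : cnt G (a, c) = 0 := by
          unfold cnt
          simp [huv, h13]
        omega
    · simp only [Prod.mk.injEq] at h2
      exact absurd h2.1 huv
  · intro h
    have hc : cnt G (u, v) = 1 := by
      unfold cnt
      simp [huv, h]
    refine ⟨bs G (u, v), bs G (v, u), ⟨((u, v), 1), by change 1 ≤ cnt G (u, v); omega⟩,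
      Or.inl ⟨rfl, rfl, Or.inl ⟨rfl, ?_⟩⟩, Or.inl ⟨rfl, rfl, Or.inr ⟨huv, rfl, rfl⟩⟩,
      Or.inl ⟨rfl, rfl, Or.inl ⟨rfl, ?_⟩⟩, Or.inr ⟨rfl, ?_⟩, (lf_iff _).2 (by simp)⟩
    · simp [bs, huv]
    · simp [bs, huv.symm]
    · simp [bs]

theorem exists_hub (ψ : sg G ≃g sg H) (u : V) : ∃ w : W, ψ (bs G (u, u)) = bs H (w, w) := by
  have h1 : Hb (sg G) (bs G (u, u)) := (hb_iff _).2 ⟨rfl, rfl⟩
  have h2 := (hb_iff _).1 (Hb_map ψ _ h1)
  refine ⟨(ψ (bs G (u, u))).1.1.1, ?_⟩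
  apply Subtype.ext
  apply Prod.ext
  · apply Prod.ext
    · rfl
    · exact h2.2.symm
  · exact h2.1

theorem bs_inj {u v : V} (h : bs G (u, u) = bs G (v, v)) : u = v := by
  have := congrArg (fun z : X G => z.1.1.1) h
  simpa [bs] using this

theorem iso_of_sg (ψ : sg G ≃g sg H) : Nonempty (G ≃g H) := by
  choose f hf using exists_hub ψ
  choose g hg using exists_hub ψ.symm
  have h1 : ∀ u, g (f u) = u := by
    intro u
    apply bs_inj (G := G)
    rw [← hg, ← hf, ψ.symm_apply_apply]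
  have h2 : ∀ w, f (g w) = w := by
    intro w
    apply bs_inj (G := H)
    rw [← hf, ← hg, ψ.apply_symm_apply]
  refine ⟨⟨⟨f, g, h1, h2⟩, ?_⟩⟩
  intro u v
  change H.Adj (f u) (f v) ↔ G.Adj u v
  by_cases huv : u = v
  · subst huv
    simp
  · have hfuv : f u ≠ f v := fun h => huv (by rw [← h1 u, ← h1 v, h])
    rw [← pr_iff huv, ← pr_iff hfuv, ← hf, ← hf]
    constructor
    · intro h
      have := Pr_map ψ.symm _ _ h
      rwa [ψ.symm_apply_apply, ψ.symm_apply_apply] at this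
    · exact Pr_map ψ _ _

theorem iso_iff : Nonempty (sg G ≃g sg H) ↔ Nonempty (G ≃g H) :=
  ⟨fun ⟨ψ⟩ => iso_of_sg ψ, fun ⟨φ⟩ => iso_of_iso φ⟩

end Pool.Agent.Y599.GG
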