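import Pool.Agent.Y599.GG.Core

/-!
# The geodetic graph made from a graph
-/

namespace Pool.Agent.Y599.GG

variable {V : Type}

open Classical in
/-- the number of pendant vertices at `(u, v)` -/
noncomputable def cnt (G : SimpleGraph V) (a : V × V) : ℕ :=
  if a.1 = a.2 then 2 else if G.Adj a.1 a.2 then 1 else 0

/-- The vertices: `((u, v), 0)` is a vertex of the subdivided complete graph, `((u, v), i)` for
`0 < i` is a pendant vertex at `((u, v), 0)`. -/
def X (G : SimpleGraph V) : Type := {x : (V × V) × ℕ // x.2 ≤ cnt G x.1}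

/-- adjacency -/
def XA (x y : (V × V) × ℕ) : Prop :=
  (x.2 = 0 ∧ y.2 = 0 ∧ CA x.1 y.1) ∨ (x.1 = y.1 ∧ (x.2 = 0 ↔ y.2 ≠ 0))

theorem XA_symm {x y : (V × V) × ℕ} (h : XA x y) : XA y x := by
  rcases h with ⟨h1, h2, h3⟩ | ⟨h1, h2⟩
  · exact Or.inl ⟨h2, h1, CA_symm h3⟩
  · exact Or.inr ⟨h1.symm, by tauto⟩

theorem XA_irrefl (x : (V × V) × ℕ) : ¬ XA x x := by
  rintro (⟨h1, h2, h3⟩ | ⟨h1, h2⟩)
  · exact CA_irrefl _ h3
  · tauto

/-- the graph: the complete graph on `V`, with each edge `uv` subdivided twice, two pendant vertices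
at each vertex of the complete graph and one at `(u, v)` and `(v, u)` if `u` and `v` are adjacent in
the given graph -/
def sg (G : SimpleGraph V) : SimpleGraph (X G) where
  Adj x y := XA x.1 y.1
  symm := ⟨fun _ _ h => XA_symm h⟩
  loopless := ⟨fun x h => XA_irrefl x.1 h⟩

/-- `0` or `1` -/
def e01 (i : ℕ) : ℕ := min i 1

open Classical in
/-- distances -/
noncomputable def DX (x y : (V × V) × ℕ) : ℕ :=
  if x = y then 0 else e01 x.2 + e01 y.2 + D0 x.1 y.1

theorem DX_zero (x y : (V × V) × ℕ) : DX x y = 0 ↔ x = y := by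
  obtain ⟨a, i⟩ := x
  obtain ⟨b, j⟩ := y
  unfold DX
  split_ifs with h
  · simp [h]
  · simp only [h, iff_false]
    intro h1
    have h2 : D0 a b = 0 := by
      change e01 i + e01 j + D0 a b = 0 at h1
      omega
    rw [D0_zero] at h2
    subst h2
    apply h
    simp only [e01] at h1
    have : i = 0 := by omega
    have : j = 0 := by omega
    subst i j
    rfl

theorem D0_self (a : V × V) : D0 a a = 0 := (D0_zero a a).2 rfl

theorem DX_le {x x' y : (V × V) × ℕ} (h : XA x x') : DX x y ≤ DX x' y + 1 := by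
  obtain ⟨a, i⟩ := x
  obtain ⟨a', i'⟩ := x'
  obtain ⟨b, j⟩ := y
  rcases h with ⟨h1, h2, h3⟩ | ⟨h1, h2⟩
  · simp only at h1 h2 h3
    subst h1 h2
    have h4 := D0_le a a' b h3
    unfold DX e01
    split_ifs with h5 h6 h7
    · omega
    · omega
    · simp only [Prod.mk.injEq] at h7
      obtain ⟨h7, h8⟩ := h7
      subst h7 h8
      have := D0_self a'
      simp only
      omega
    · simp only
      omega
  · simp only at h1 h2
    subst h1
    unfold DX e01
    split_ifs with h5 h6 h7
    · omega
    · omega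
    · simp only [Prod.mk.injEq] at h7
      obtain ⟨h7, h8⟩ := h7
      subst h7 h8
      have := D0_self a
      simp only
      omega
    · simp only
      omega

variable {G : SimpleGraph V}

theorem base_le (G : SimpleGraph V) (a : V × V) : (((a, 0) : (V × V) × ℕ)).2 ≤ cnt G (a, 0).1 :=
  Nat.zero_le _

/-- the vertex `((u, v), 0)` -/
def bs (G : SimpleGraph V) (a : V × V) : X G := ⟨(a, 0), Nat.zero_le _⟩

theorem desc (x y : X G) (h : x ≠ y) : ∃ x', (sg G).Adj x x' ∧ DX x'.1 y.1 + 1 = DX x.1 y.1 := by
  obtain ⟨⟨a, i⟩, hx⟩ := x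
  obtain ⟨⟨b, j⟩, hy⟩ := y
  have hne : ((a, i) : (V × V) × ℕ) ≠ (b, j) := fun h' => h (Subtype.ext h')
  rcases Nat.eq_zero_or_pos i with rfl | hi
  · by_cases hab : a = b
    · subst hab
      have hj : j ≠ 0 := by
        rintro rfl
        exact hne rfl
      refine ⟨⟨(a, j), hy⟩, Or.inr ⟨rfl, by simp [hj]⟩, ?_⟩
      simp only [DX, if_true, hne, if_false, D0_self, e01]
      omega
    · refine ⟨bs G (nx a b), Or.inl ⟨rfl, rfl, nx_adj a b hab⟩, ?_⟩
      have h1 := nx_D0 a b hab
      simp only [DX, bs, hne, if_false, e01]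
      split_ifs with h2
      · simp only [Prod.mk.injEq] at h2
        obtain ⟨h2, h3⟩ := h2
        rw [h2, D0_self] at h1
        omega
      · omega
  · refine ⟨bs G a, Or.inr ⟨rfl, by simp only [bs]; omega⟩, ?_⟩
    simp only [DX, bs, hne, if_false, e01]
    split_ifs with h2
    · simp only [Prod.mk.injEq] at h2
      obtain ⟨h2, h3⟩ := h2
      subst h2 h3
      rw [D0_self]
      omega
    · omega

theorem desc_unique (x y : (V × V) × ℕ) (h : x ≠ y) (c d : (V × V) × ℕ) (h1 : XA x c) (h2 : XA x d)
    (h3 : DX c y + 1 = DX x y) (h4 : DX d y + 1 = DX x y) : c = d := by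
  classical
  obtain ⟨a, i⟩ := x
  obtain ⟨b, j⟩ := y
  -- the possible neighbours
  have key : ∀ c : (V × V) × ℕ, XA (a, i) c → DX c (b, j) + 1 = DX (a, i) (b, j) →
      c = if i ≠ 0 then (a, 0) else if a = b then (b, j) else (nx a b, 0) := by
    rintro ⟨c, k⟩ h5 h6
    simp only [DX, h, if_false, e01] at h6
    rcases h5 with ⟨h7, h8, h9⟩ | ⟨h7, h8⟩
    · simp only at h7 h8 h9
      subst h7 h8
      simp only [ne_eq, not_true_eq_false, if_false]
      by_cases hab : a = b
      · subst hab
        exfalso
        rw [D0_self] at h6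
        have hca : c ≠ a := by
          rintro rfl
          exact CA_irrefl _ h9
        have h10 : D0 c a ≠ 0 := fun h => hca ((D0_zero _ _).1 h)
        have h11 : ¬ ((c, 0) : (V × V) × ℕ) = (a, j) := by
          intro h
          simp only [Prod.mk.injEq] at h
          exact hca h.1
        rw [if_neg h11] at h6
        omega
      · rw [if_neg hab]
        have h10 : D0 c b + 1 = D0 a b := by
          split_ifs at h6 with h11
          · simp only [Prod.mk.injEq] at h11
            obtain ⟨h11, h12⟩ := h11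
            subst h11 h12
            rw [D0_self]
            omega
          · omega
        rw [nx_unique a b hab c h9 h10]
    · simp only at h7 h8
      subst h7
      by_cases hi : i = 0
      · have hk : k ≠ 0 := h8.1 hi
        subst hi
        simp only [ne_eq, not_true_eq_false, if_false]
        split_ifs at h6 with h11
        · simp only [Prod.mk.injEq] at h11
          obtain ⟨h11, h12⟩ := h11
          subst h11 h12
          simp
        · exfalso
          omega
      · have hk : k = 0 := by
          by_contra hk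
          exact hi (h8.2 hk)
        subst hk
        simp [hi]
  rw [key c h1 h3, key d h2 h4]

instance [Nonempty V] : Nonempty (X G) := ⟨bs G (Classical.arbitrary _, Classical.arbitrary _)⟩

/-- the graph is geodetic -/
theorem geodetic_sg [Nonempty V] (G : SimpleGraph V) : Geodetic (sg G) :=
  geodetic_of (D := fun x y : X G => DX x.1 y.1)
    (fun x y => (DX_zero x.1 y.1).trans Subtype.ext_iff.symm)
    (fun _ _ _ h => DX_le h)
    (fun x y h => desc x y h)
    (fun x y h a b h1 h2 h3 h4 => Subtype.ext
      (desc_unique x.1 y.1 (fun h' => h (Subtype.ext h')) a.1 b.1 h1 h2 h3 h4))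

end Pool.Agent.Y599.GG
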