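import Pool.Agent.Y599.GG.Code

/-!
# A polynomial-time test for geodetic graphs
-/

namespace Pool.Agent.Y599.GG

open Pool.Agent.NPC Pool.Agent.NPC.R671 Pool.Agent.H671R2.Ord

/-- neighbours of the members of `L` -/
def stp (M : List (List Bool)) (L : List ℕ) : List ℕ :=
  (List.range M.length).filter (fun v => L.any (fun z => me M z v))

/-- the ends of the walks of length `k` from `u` (for `k` at most the number of vertices) -/
def wk (M : List (List Bool)) (u k : ℕ) : List ℕ :=
  (stp M)^[((List.range M.length).filter (fun j => decide (j < k))).length] [u]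

/-- the vertices `v` and `u` are joined by exactly one walk of length `k` and by no shorter one -/
def oneWalk (M : List (List Bool)) (u v k : ℕ) : Bool :=
  decide (v ∈ wk M u k) && ((List.range M.length).all (fun j => !(decide (j < k)) ||
    !(decide (v ∈ wk M u j))) &&
  (decide (k = 0) || (List.range M.length).all (fun a => (List.range M.length).all (fun b =>
    !((me M v a && decide (a ∈ wk M u (k - 1))) && (me M v b && decide (b ∈ wk M u (k - 1)))) ||
      decide (a = b)))))

/-- the test -/
def geoB (M : List (List Bool)) : Bool :=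
  !(decide (M.length = 0)) && (List.range M.length).all (fun u => (List.range M.length).all
    (fun v => (List.range M.length).any (fun k => oneWalk M u v k)))

section

variable {n : ℕ} (G : SimpleGraph (Fin n))

theorem length_filter_lt {n k : ℕ} (h : k ≤ n) :
    ((List.range n).filter (fun j => decide (j < k))).length = k := by
  have : (List.range n).filter (fun j => decide (j < k)) = List.range k := by
    obtain ⟨m, rfl⟩ := Nat.exists_eq_add_of_le h
    rw [List.range_add, List.filter_append]
    have h1 : (List.range k).filter (fun j => decide (j < k)) = List.range k := by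
      rw [List.filter_eq_self]
      intro a ha
      simpa using ha
    have h2 : ((List.range m).map (k + ·)).filter (fun j => decide (j < k)) = [] := by
      rw [List.filter_eq_nil_iff]
      intro a ha
      simp only [List.mem_map, List.mem_range] at ha
      obtain ⟨b, _, rfl⟩ := ha
      simp
    rw [h1, h2, List.append_nil]
  rw [this, List.length_range]

theorem mem_stp {M : List (List Bool)} {L : List ℕ} {v : ℕ} :
    v ∈ stp M L ↔ v < M.length ∧ ∃ z ∈ L, me M z v = true := by
  unfold stp
  simp only [List.mem_filter, List.mem_range, List.any_eq_true]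

theorem mem_stp_iter (u : Fin n) (k : ℕ) (v : ℕ) :
    v ∈ (stp (adjMatrix G))^[k] [(u : ℕ)] ↔ ∃ h : v < n, ∃ p : G.Walk u ⟨v, h⟩, p.length = k := by
  induction k generalizing v with
  | zero =>
    simp only [Function.iterate_zero, id_eq, List.mem_singleton]
    constructor
    · rintro rfl
      exact ⟨u.2, .nil, rfl⟩
    · rintro ⟨h, p, hp⟩
      have := SimpleGraph.Walk.eq_of_length_eq_zero hp
      rw [this]
  | succ k ih =>
    rw [Function.iterate_succ', Function.comp_apply, mem_stp, length_adjMatrix]
    constructor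
    · rintro ⟨hv, z, hz, hzv⟩
      rw [ih] at hz
      obtain ⟨h, p, hp⟩ := hz
      have h1 : G.Adj ⟨z, h⟩ ⟨v, hv⟩ := (me_adj G ⟨z, h⟩ ⟨v, hv⟩).1 hzv
      refine ⟨hv, p.concat h1, ?_⟩
      rw [SimpleGraph.Walk.length_concat, hp]
    · rintro ⟨hv, p, hp⟩
      refine ⟨hv, ?_⟩
      obtain ⟨w, q, h1, h2⟩ : ∃ (w : Fin n) (q : G.Walk u w) (h : G.Adj w ⟨v, hv⟩),
          q.length = k := by
        have h3 : p.reverse.length = k + 1 := by rw [SimpleGraph.Walk.length_reverse, hp]
        cases h4 : p.reverse with
        | nil => rw [h4] at h3; simp at h3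
        | cons h5 q =>
          rw [h4, SimpleGraph.Walk.length_cons] at h3
          exact ⟨_, q.reverse, h5.symm, by rw [SimpleGraph.Walk.length_reverse]; omega⟩
      refine ⟨w, (ih w).2 ⟨w.2, q, h2⟩, ?_⟩
      exact (me_adj G w ⟨v, hv⟩).2 h1

theorem mem_wk {u : Fin n} {k v : ℕ} (hk : k ≤ n) :
    v ∈ wk (adjMatrix G) u k ↔ ∃ h : v < n, ∃ p : G.Walk u ⟨v, h⟩, p.length = k := by
  unfold wk
  rw [length_adjMatrix, length_filter_lt hk, mem_stp_iter]

theorem oneWalk_iff (u v : Fin n) {k : ℕ} (hk : k < n) : oneWalk (adjMatrix G) u v k = true ↔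
    (∃ p : G.Walk u v, p.length = k) ∧ (∀ j < k, ∀ p : G.Walk u v, p.length ≠ j) ∧
    (k = 0 ∨ ∀ a b : Fin n, G.Adj v a → G.Adj v b → (∃ p : G.Walk u a, p.length = k - 1) →
      (∃ p : G.Walk u b, p.length = k - 1) → a = b) := by
  unfold oneWalk
  simp only [Bool.and_eq_true, Bool.or_eq_true, decide_eq_true_eq, List.all_eq_true,
    List.mem_range, length_adjMatrix, Bool.not_eq_true', decide_eq_false_iff_not,
    Bool.and_eq_false_iff]
  rw [mem_wk G hk.le]
  refine and_congr ?_ (and_congr ?_ (or_congr Iff.rfl ?_))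
  · exact ⟨fun ⟨_, h⟩ => h, fun h => ⟨v.2, h⟩⟩
  · constructor
    · intro h j hj p hp
      rcases h j (by omega) with h1 | h1
      · exact h1 hj
      · rw [mem_wk G (by omega)] at h1
        exact h1 ⟨v.2, p, hp⟩
    · intro h j hj
      by_cases hjk : j < k
      · right
        rw [mem_wk G (by omega)]
        rintro ⟨_, p, hp⟩
        exact h j hjk p hp
      · exact Or.inl hjk
  · constructor
    · intro h a b ha hb hp hq
      rcases h a a.2 b b.2 with (h1 | h1) | h1
      · rcases h1 with h1 | h1
        · have := (me_adj G v a).2 ha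
          rw [h1] at this
          exact absurd this (by simp)
        · rw [mem_wk G (by omega)] at h1
          exact absurd ⟨a.2, hp⟩ h1
      · rcases h1 with h1 | h1
        · have := (me_adj G v b).2 hb
          rw [h1] at this
          exact absurd this (by simp)
        · rw [mem_wk G (by omega)] at h1
          exact absurd ⟨b.2, hq⟩ h1
      · exact Fin.ext h1
    · intro h a ha b hb
      by_contra hc
      push Not at hc
      obtain ⟨⟨⟨h1, h2⟩, ⟨h3, h4⟩⟩, h5⟩ := hc
      rw [mem_wk G (by omega)] at h2 h4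
      obtain ⟨_, h2⟩ := h2
      obtain ⟨_, h4⟩ := h4
      have h6 : G.Adj v ⟨a, ha⟩ := (me_adj G v ⟨a, ha⟩).1 (by simpa using h1)
      have h7 : G.Adj v ⟨b, hb⟩ := (me_adj G v ⟨b, hb⟩).1 (by simpa using h3)
      exact h5 (congrArg Fin.val (h ⟨a, ha⟩ ⟨b, hb⟩ h6 h7 h2 h4))

theorem geoB_iff : geoB (adjMatrix G) = true ↔ Geodetic G := by
  unfold geoB
  simp only [Bool.and_eq_true, List.all_eq_true, List.any_eq_true,
    List.mem_range, length_adjMatrix, Bool.not_eq_true', decide_eq_false_iff_not]
  constructor
  · rintro ⟨hn, h⟩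
    have : Nonempty (Fin n) := ⟨⟨0, Nat.pos_of_ne_zero hn⟩⟩
    have h' : ∀ u v : Fin n, ∃ k, (∃ p : G.Walk u v, p.length = k) ∧
        (∀ j < k, ∀ p : G.Walk u v, p.length ≠ j) ∧
        (k = 0 ∨ ∀ a b : Fin n, G.Adj v a → G.Adj v b → (∃ p : G.Walk u a, p.length = k - 1) →
          (∃ p : G.Walk u b, p.length = k - 1) → a = b) := by
      intro u v
      obtain ⟨k, hk, h1⟩ := h u u.2 v v.2
      exact ⟨k, (oneWalk_iff G u v hk).1 h1⟩
    have hc : G.Connected := ⟨fun u v => by
      obtain ⟨k, ⟨p, _⟩, _⟩ := h' u v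
      exact ⟨p⟩⟩
    refine geodetic_of (D := fun x y => G.dist x y) (fun x y => hc.dist_eq_zero_iff)
      (fun x x' y hx => dist_le_succ hc y hx) (fun x y hxy => Geodetic.exists_next hc hxy) ?_
    intro x y hxy a b ha hb h1 h2
    obtain ⟨k, ⟨p, hp⟩, h3, h4⟩ := h' y x
    have hd : G.dist x y = k := by
      rw [SimpleGraph.dist_comm]
      apply le_antisymm
      · rw [← hp]
        exact SimpleGraph.dist_le p
      · obtain ⟨q, hq⟩ := hc.exists_walk_length_eq_dist y x
        by_contra hlt
        push Not at hlt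
        exact h3 _ hlt q hq
    rw [hd] at h1 h2
    rcases h4 with h4 | h4
    · omega
    · refine h4 a b ha hb ?_ ?_
      · obtain ⟨q, hq⟩ := hc.exists_walk_length_eq_dist y a
        exact ⟨q, by rw [hq, SimpleGraph.dist_comm]; omega⟩
      · obtain ⟨q, hq⟩ := hc.exists_walk_length_eq_dist y b
        exact ⟨q, by rw [hq, SimpleGraph.dist_comm]; omega⟩
  · intro hG
    have hc := hG.1
    refine ⟨?_, ?_⟩
    · rintro rfl
      exact hc.nonempty.some.elim0
    · intro u hu v hv
      have hlt : G.dist (⟨u, hu⟩ : Fin n) ⟨v, hv⟩ < n := by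
        obtain ⟨p, hp, hp'⟩ := hc.exists_path_of_dist (⟨u, hu⟩ : Fin n) ⟨v, hv⟩
        rw [← hp']
        have := hp.length_lt
        simpa using this
      refine ⟨_, hlt, (oneWalk_iff G ⟨u, hu⟩ ⟨v, hv⟩ hlt).2 ⟨?_, ?_, ?_⟩⟩
      · exact hc.exists_walk_length_eq_dist _ _
      · intro j hj p hp
        have := SimpleGraph.dist_le p
        omega
      · by_cases h0 : G.dist (⟨u, hu⟩ : Fin n) ⟨v, hv⟩ = 0
        · exact Or.inl h0
        · right
          rintro a b ha hb ⟨p, hp⟩ ⟨q, hq⟩
          have hpa := SimpleGraph.dist_le p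
          have hqb := SimpleGraph.dist_le q
          have h1 := dist_le_succ hc (⟨u, hu⟩ : Fin n) ha
          have h2 := dist_le_succ hc (⟨u, hu⟩ : Fin n) hb
          rw [SimpleGraph.dist_comm (u := (⟨v, hv⟩ : Fin n))] at h1 h2
          refine hG.next_unique (x := (⟨v, hv⟩ : Fin n)) (y := (⟨u, hu⟩ : Fin n)) ha hb ?_ ?_
          · rw [SimpleGraph.dist_comm (u := (⟨v, hv⟩ : Fin n))]
            rw [SimpleGraph.dist_comm (u := a)] at h1 ⊢
            omega
          · rw [SimpleGraph.dist_comm (u := (⟨v, hv⟩ : Fin n))]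
            rw [SimpleGraph.dist_comm (u := b)] at h2 ⊢
            omega

end

theorem sz_filter_le' {α : Type} [TEnc α] (l : List α) (p : α → Bool) :
    sz (l.filter p) ≤ sz l := by
  induction l with
  | nil => simp
  | cons a l ih =>
    rw [List.filter_cons]
    split_ifs
    · rw [sz_list_cons, sz_list_cons]; omega
    · rw [sz_list_cons]; omega

theorem wk_poly {α : Type} [TEnc α] {M : α → List (List Bool)} {u k : α → ℕ} (h1 : Poly M)
    (h2 : Poly u) (h3 : Poly k) : Poly (fun x => wk (M x) (u x) (k x)) := by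
  unfold wk
  have hr : Poly (fun x => List.range (M x).length) := NPC.Poly.range_length h1
  have hl : Poly (fun x => (List.range (M x).length).filter (fun j => decide (j < k x))) :=
    NPC.Poly.filter (p := fun x j => decide (j < k x)) hr (by fun_prop)
  obtain ⟨q, hq⟩ := hr.sz_le
  obtain ⟨q', hq'⟩ := (show Poly (fun x => [u x]) by fun_prop).sz_le
  refine NPC.Poly.iterLen (s := fun x => [u x]) (F := fun x L => stp (M x) L) hl
    (by fun_prop) ?_ (q + q') ?_
  · unfold stp
    exact NPC.Poly.filter (l := fun p : α × List ℕ => List.range (M p.1).length)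
      (p := fun (p : α × List ℕ) v => p.2.any (fun z => me (M p.1) z v))
      (hr.comp (NPC.Poly.fst NPC.Poly.id)) (by fun_prop)
  · intro a k _
    rw [Polynomial.eval_add]
    cases k with
    | zero =>
      have := hq' a
      simp only [Function.iterate_zero, id_eq]
      omega
    | succ k =>
      rw [Function.iterate_succ', Function.comp_apply]
      have h4 := sz_filter_le' (List.range (M a).length) (fun v =>
        ((stp (M a))^[k] [u a]).any (fun z => me (M a) z v))
      have h5 := hq a
      unfold stp at h4 ⊢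
      omega

attribute [fun_prop] wk_poly
attribute [local irreducible] wk

theorem oneWalk_poly {α : Type} [TEnc α] {M : α → List (List Bool)} {u v k : α → ℕ} (h1 : Poly M)
    (h2 : Poly u) (h3 : Poly v) (h4 : Poly k) :
    Poly (fun x => oneWalk (M x) (u x) (v x) (k x)) := by
  unfold oneWalk
  have hr : Poly (fun x => List.range (M x).length) := NPC.Poly.range_length h1
  refine NPC.Poly.and (by fun_prop) (NPC.Poly.and ?_ (NPC.Poly.or (by fun_prop) ?_))
  · exact NPC.Poly.all (p := fun x j => !(decide (j < k x)) || !(decide (v x ∈ wk (M x) (u x) j)))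
      hr (by fun_prop)
  · refine NPC.Poly.all (p := fun x a => (List.range (M x).length).all (fun b =>
      !((me (M x) (v x) a && decide (a ∈ wk (M x) (u x) (k x - 1))) &&
        (me (M x) (v x) b && decide (b ∈ wk (M x) (u x) (k x - 1)))) || decide (a = b))) hr ?_
    exact NPC.Poly.all (l := fun p : α × ℕ => List.range (M p.1).length)
      (p := fun (p : α × ℕ) b =>
      !((me (M p.1) (v p.1) p.2 && decide (p.2 ∈ wk (M p.1) (u p.1) (k p.1 - 1))) &&
        (me (M p.1) (v p.1) b && decide (b ∈ wk (M p.1) (u p.1) (k p.1 - 1)))) ||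
          decide (p.2 = b)) (hr.comp (NPC.Poly.fst NPC.Poly.id)) (by fun_prop)

attribute [fun_prop] oneWalk_poly
attribute [local irreducible] oneWalk

theorem geoB_poly : Poly geoB := by
  unfold geoB
  have hr : Poly (fun M : List (List Bool) => List.range M.length) :=
    NPC.Poly.range_length NPC.Poly.id
  refine NPC.Poly.and (by fun_prop) ?_
  refine NPC.Poly.all (p := fun (M : List (List Bool)) u => (List.range M.length).all
    (fun v => (List.range M.length).any (fun k => oneWalk M u v k))) hr ?_
  refine NPC.Poly.all (l := fun p : List (List Bool) × ℕ => List.range p.1.length)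
    (p := fun (p : List (List Bool) × ℕ) v => (List.range p.1.length).any
      (fun k => oneWalk p.1 p.2 v k)) (hr.comp (NPC.Poly.fst NPC.Poly.id)) ?_
  exact NPC.Poly.any (l := fun p : (List (List Bool) × ℕ) × ℕ => List.range p.1.1.length)
    (p := fun (p : (List (List Bool) × ℕ) × ℕ) k => oneWalk p.1.1 p.1.2 p.2 k)
    (hr.comp (NPC.Poly.fst (NPC.Poly.fst NPC.Poly.id))) (by fun_prop)

end Pool.Agent.Y599.GG
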